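import Mathlib
import Pool.Agent.H.MP_b621dd_an.B

namespace Pool.Agent.Results.MP_b621dd_an.No

/-- bounded holomorphic functions on Ω -/
def Hol (Ω : Set (ℂ × ℂ)) (f : Ω → ℂ) : Prop :=
  (∃ C, ∀ z, ‖f z‖ ≤ C) ∧ ∃ F : ℂ × ℂ → ℂ, DifferentiableOn ℂ F Ω ∧ ∀ z : Ω, f z = F z

def Hinf (Ω : Set (ℂ × ℂ)) : Subring (Ω → ℂ) where
  carrier := {f | Hol Ω f}
  zero_mem' := ⟨⟨0, by simp⟩, 0, differentiableOn_const 0, fun _ => rfl⟩
  one_mem' := ⟨⟨1, by simp⟩, 1, differentiableOn_const 1, fun _ => rfl⟩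
  neg_mem' := fun ⟨⟨C, h⟩, F, h1, h2⟩ =>
    ⟨⟨C, fun z => by simpa using h z⟩, -F, h1.neg, fun z => by simp [h2]⟩
  add_mem' := fun ⟨⟨C, h⟩, F, h1, h2⟩ ⟨⟨D, k⟩, G, k1, k2⟩ =>
    ⟨⟨C + D, fun z => norm_add_le_of_le (h z) (k z)⟩, F + G, h1.add k1, fun z => by simp [h2, k2]⟩
  mul_mem' := fun ⟨⟨C, h⟩, F, h1, h2⟩ ⟨⟨D, k⟩, G, k1, k2⟩ =>
    ⟨⟨C * D, fun z => norm_mul_le_of_le (h z) (k z)⟩, F * G, h1.mul k1, fun z => by simp [h2, k2]⟩

def D2 : Set (ℂ × ℂ) := {z | ‖z.1‖ < 1 ∧ ‖z.2‖ < 1}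

def B2 : Set (ℂ × ℂ) := {z | ‖z.1‖ ^ 2 + ‖z.2‖ ^ 2 < 1}

def Bad (Ω : Set (ℂ × ℂ)) : Prop :=
  ∃ I J : Ideal (Hinf Ω), I.FG ∧ J.FG ∧ ¬ (I ⊓ J).FG

open Pool.Agent.H.MP_b621dd_an Complex Metric

theorem gen {Ω : Set (ℂ × ℂ)} (f g : Hinf Ω) (ι : ℂ → ℂ × ℂ) (hι : DifferentiableOn ℂ ι Hp)
    (hm : ∀ s ∈ Hp, ι s ∈ Ω)
    (h2 : ∀ a b : Hinf Ω, f * a = g * b → ∀ B, (∀ z, ‖b.1 z‖ ≤ B) →
      ∀ s (hs : s ∈ Hp), s.re * ‖a.1 ⟨ι s, hm s hs⟩‖ ≤ 4 * B)
    (h3 : ∀ A : ℝ, 2 ≤ A → ∀ c : ℕ → ℂ, (∀ l, ‖c l‖ ≤ 1) → ∃ a b : Hinf Ω, f * a = g * b ∧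
      ∀ s (hs : s ∈ Hp), a.1 ⟨ι s, hm s hs⟩ = kap A c (s, s)) : Bad Ω := by
  refine ⟨Ideal.span {f}, Ideal.span {g}, Submodule.fg_span_singleton f,
    Submodule.fg_span_singleton g, fun h => ?_⟩
  obtain ⟨N, h, hh⟩ := Submodule.fg_iff_exists_fin_generating_family.1 h
  have hi : ∀ i, h i ∈ Ideal.span {f} ⊓ Ideal.span {g} := fun i =>
    hh ▸ Submodule.subset_span ⟨i, rfl⟩
  choose a ha using fun i => Ideal.mem_span_singleton'.1 (hi i).1
  choose b hb using fun i => Ideal.mem_span_singleton'.1 (hi i).2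
  choose B hB using fun i => (b i).2.1
  choose F hF hF' using fun i => (a i).2.2
  have B0 : ∀ i, 0 ≤ B i := fun i =>
    (norm_nonneg _).trans (hB i ⟨ι 1, hm 1 (one_pos : (0 : ℝ) < 1)⟩)
  refine core N (fun i s => F i (ι s)) (4 * ∑ i, B i)
    (mul_nonneg (by norm_num) (Finset.sum_nonneg fun i _ => B0 i)) (fun i s hs => ?_)
    fun A hA c hc => ?_
  · rw [← hF' i ⟨ι s, hm s hs⟩]
    refine (h2 (a i) (b i) (by rw [mul_comm, ha, mul_comm, hb]) _ (hB i) s hs).trans ?_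
    gcongr
    exact Finset.single_le_sum (fun i _ => B0 i) (Finset.mem_univ i)
  · obtain ⟨u, v, huv, hu⟩ := h3 A hA c hc
    have : f * u ∈ Submodule.span (Hinf Ω) (Set.range h) := by
      rw [hh]
      exact ⟨Ideal.mem_span_singleton'.2 ⟨u, mul_comm _ _⟩,
        Ideal.mem_span_singleton'.2 ⟨v, by rw [huv, mul_comm]⟩⟩
    obtain ⟨k, hk⟩ := (Submodule.mem_span_range_iff_exists_fun _).1 this
    choose G hG hG' using fun i => (k i).2.2
    refine ⟨fun i s => G i (ι s), fun i => (hG i).comp hι hm, fun i => ?_, fun s hs => ?_⟩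
    · obtain ⟨C, hC⟩ := (k i).2.1
      exact ⟨C, fun s hs => (congrArg norm (hG' i ⟨ι s, hm s hs⟩)).symm.trans_le (hC _)⟩
    · have e : f * (u - ∑ i, k i * a i) = g * 0 := by
        rw [mul_sub, ← hk, Finset.mul_sum, mul_zero, sub_eq_zero]
        exact Finset.sum_congr rfl fun i _ => by rw [← ha, smul_eq_mul]; ring
      have e2 := h2 _ _ e 0 (fun z => by simp) s hs
      have s0 : 0 < s.re := hs
      rw [mul_zero, mul_nonpos_iff_pos_imp_nonpos] at e2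
      have e3 := norm_le_zero_iff.1 (e2.1 s0)
      simp only [AddSubgroupClass.coe_sub, Pi.sub_apply, AddSubmonoidClass.coe_finsetSum,
        Finset.sum_apply, MulMemClass.coe_mul, Pi.mul_apply, sub_eq_zero, hu s hs, hG', hF'] at e3
      rw [← kap_diag, e3]

/-- a bounded holomorphic function as an element of the ring -/
def mk (Ω : Set (ℂ × ℂ)) (F : ℂ × ℂ → ℂ) (C : ℝ) (h : ∀ z ∈ Ω, DifferentiableAt ℂ F z ∧ ‖F z‖ ≤ C) :
    Hinf Ω :=
  ⟨fun z => F z, ⟨C, fun z => (h z z.2).2⟩, F,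
    fun z hz => (h z hz).1.differentiableWithinAt, fun _ => rfl⟩

theorem om {x : ℂ} (h : ‖x‖ < 1) : ‖1 - x‖ ≤ 2 := by
  have := norm_sub_le 1 x
  rw [norm_one] at this
  linarith

theorem bidisc : Bad D2 := by
  refine gen (mk D2 (fun z => z.1 - z.2) 2 fun z hz => ⟨by fun_prop, by
      linarith [norm_sub_le z.1 z.2, hz.1, hz.2]⟩)
    (mk D2 (fun z => (1 - z.1) * (1 - z.2)) (2 * 2) fun z hz => ⟨by fun_prop,
      norm_mul_le_of_le (om hz.1) (om hz.2)⟩) (fun s => (cy s, cy s)) (cy_diff.prodMk cy_diff)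
    (fun s hs => ⟨cy_mem hs, cy_mem hs⟩) (fun a b e B hB s hs => ?_) fun A hA c hc => ?_
  · obtain ⟨F, hF, hF'⟩ := a.2.2
    have s0 : 0 < s.re := hs
    have mem : ∀ t ∈ closedBall s (s.re / 2), t ∈ Hp := fun t ht => by
      have := (neg_abs_le _).trans' (neg_le_neg ((abs_re_le_norm _).trans
        (mem_closedBall_iff_norm.1 ht)))
      rw [sub_re] at this
      change 0 < t.re
      linarith
    have := maxp (f := fun t => F (cy s, cy t)) (z := s) (r := s.re / 2) (C := 4 * B / s.re)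
      (by positivity) (hF.comp ((differentiableOn_const _).prodMk (cy_diff.mono mem))
        fun t ht => ⟨cy_mem hs, cy_mem (mem t ht)⟩) (fun t ht => by
      have t0 := mem t (mem_closedBall_iff_norm.2 ht.le)
      let z : D2 := ⟨(cy s, cy t), cy_mem hs, cy_mem t0⟩
      have e1 : (cy s - cy t) * a.1 z = (1 - cy s) * (1 - cy t) * b.1 z :=
        congrFun (congrArg Subtype.val e) z
      have e2 : (t - s) * F (cy s, cy t) = -2 * b.1 z := by
        have := ne1 hs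
        have := ne1 t0
        rw [hF' z] at e1
        change _ * F z = _
        generalize F z = y at e1
        simp only [cy] at e1
        field_simp at e1
        linear_combination -e1 / 2
      have e3 := congrArg norm e2
      rw [norm_mul, norm_mul, ht, norm_neg, Complex.norm_two] at e3
      rw [le_div_iff₀ s0]
      linarith [hB z])
    rw [hF']
    rwa [le_div_iff₀ s0, mul_comm] at this
  · have hd : ∀ z ∈ D2, DifferentiableAt ℂ (fun z : ℂ × ℂ => (ci z.1, ci z.2)) z := fun z hz =>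
      ((ci_diff hz.1).comp z differentiableAt_fst).prodMk
        ((ci_diff hz.2).comp z differentiableAt_snd)
    refine ⟨mk D2 (fun z => kap A c (ci z.1, ci z.2)) 2 fun z hz =>
        ⟨(kap_diff hA hc _).comp z (hd z hz), (kap_le hA hc (ci_mem hz.1) (ci_mem hz.2)).1⟩,
      mk D2 (fun z => (ci z.1 - ci z.2) * kap A c (ci z.1, ci z.2) * 2⁻¹) 34 fun z hz =>
        ⟨(((hd z hz).fst.sub (hd z hz).snd).mul
          ((kap_diff hA hc _).comp z (hd z hz))).mul_const _, ?_⟩, ?_, fun s hs => ?_⟩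
    · have := (kap_le hA hc (z := (ci z.1, ci z.2)) (ci_mem hz.1) (ci_mem hz.2)).2
      rw [norm_mul, norm_inv, Complex.norm_two]
      linarith
    · refine Subtype.ext (funext fun z => ?_)
      change (z.1.1 - z.1.2) * kap A c _ = (1 - z.1.1) * (1 - z.1.2) * ((ci _ - ci _) * _ * 2⁻¹)
      have := ne2 z.2.1
      have := ne2 z.2.2
      generalize kap A c _ = k
      simp only [ci]
      field_simp
      ring
    · change kap A c (ci (cy s), ci (cy s)) = _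
      rw [ci_cy hs]

theorem ball : Bad B2 := by
  have m1 : ∀ z ∈ B2, ‖z.1‖ < 1 ∧ ‖z.2‖ ^ 2 < 1 - ‖z.1‖ ^ 2 := fun z hz => by
    have h : ‖z.1‖ ^ 2 + ‖z.2‖ ^ 2 < 1 := hz
    exact ⟨by nlinarith [norm_nonneg z.1, sq_nonneg ‖z.2‖], by linarith⟩
  have m2 : ∀ s ∈ Hp, 0 < 1 - ‖cy s‖ ^ 2 := fun s hs => by
    nlinarith [cy_mem hs, norm_nonneg (cy s)]
  refine gen (mk B2 (fun z => z.2 ^ 2) 1 fun z hz => ⟨by fun_prop, by
      rw [norm_pow]; linarith [(m1 z hz).2, sq_nonneg ‖z.1‖]⟩)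
    (mk B2 (fun z => (1 - z.1) * (1 - z.1)) (2 * 2) fun z hz => ⟨by fun_prop,
      norm_mul_le_of_le (om (m1 z hz).1) (om (m1 z hz).1)⟩) (fun s => (cy s, 0))
    (cy_diff.prodMk (differentiableOn_const _))
    (fun s hs => by simpa [B2] using m2 s hs) (fun a b e B hB s hs => ?_) fun A hA c hc => ?_
  · obtain ⟨F, hF, hF'⟩ := a.2.2
    have s0 : 0 < s.re := hs
    have r0 := m2 s hs
    have r1 := ci_re (cy_mem hs)
    rw [ci_cy hs] at r1
    have r2 := Real.sq_sqrt (x := (1 - ‖cy s‖ ^ 2) / 2) (by positivity)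
    have r3 : 0 < √((1 - ‖cy s‖ ^ 2) / 2) := by positivity
    generalize √((1 - ‖cy s‖ ^ 2) / 2) = r at r2 r3
    have mem : ∀ t ∈ closedBall (0 : ℂ) r, (cy s, t) ∈ B2 := fun t ht => by
      have := pow_le_pow_left₀ (norm_nonneg _) (mem_closedBall_zero_iff.1 ht) 2
      change ‖cy s‖ ^ 2 + ‖t‖ ^ 2 < 1
      linarith
    have := maxp (f := fun t => F (cy s, t)) (z := 0) (r := r) (C := 4 * B / s.re) r3
      (hF.comp (by fun_prop) mem) (fun t ht => by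
      rw [sub_zero] at ht
      let z : B2 := ⟨(cy s, t), mem t (mem_closedBall_zero_iff.2 ht.le)⟩
      have e1 : t ^ 2 * a.1 z = (1 - cy s) * (1 - cy s) * b.1 z :=
        congrFun (congrArg Subtype.val e) z
      have e3 := congrArg norm e1
      rw [hF' z, norm_mul, norm_mul, norm_mul, norm_pow, ht, ← sq] at e3
      have e4 : 0 < ‖1 - cy s‖ ^ 2 := pow_pos (norm_pos_iff.2 (ne2 (cy_mem hs))) 2
      have e5 : ‖F (cy s, t)‖ * s.re = 2 * ‖b.1 z‖ := by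
        apply mul_left_cancel₀ e4.ne'
        have : r ^ 2 = s.re * ‖1 - cy s‖ ^ 2 / 2 := by rw [r1, r2]
        rw [this] at e3
        linarith
      rw [le_div_iff₀ s0]
      linarith [hB z, norm_nonneg (b.1 z)])
    rw [hF']
    rwa [le_div_iff₀ s0, mul_comm] at this
  · have hd : ∀ z ∈ B2, DifferentiableAt ℂ (fun z : ℂ × ℂ => kap A c (ci z.1, ci z.1)) z :=
      fun z hz => (kap_diff hA hc _).comp z
        (((ci_diff (m1 z hz).1).comp z differentiableAt_fst).prodMk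
          ((ci_diff (m1 z hz).1).comp z differentiableAt_fst))
    refine ⟨mk B2 (fun z => kap A c (ci z.1, ci z.1)) 2 fun z hz =>
        ⟨hd z hz, (kap_le hA hc (ci_mem (m1 z hz).1) (ci_mem (m1 z hz).1)).1⟩,
      mk B2 (fun z => z.2 ^ 2 * ((1 - z.1) ^ 2)⁻¹ * kap A c (ci z.1, ci z.1)) 4 fun z hz =>
        ⟨DifferentiableAt.fun_mul (DifferentiableAt.fun_mul (by fun_prop)
          (DifferentiableAt.fun_inv (by fun_prop) (pow_ne_zero 2 (ne2 (m1 z hz).1))))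
          (hd z hz), ?_⟩, ?_, fun s hs => ?_⟩
    · refine le_trans ?_ (psi_le hA hc (ci_mem (m1 z hz).1))
      rw [norm_mul, ← div_eq_mul_inv, norm_div, norm_pow, norm_pow]
      gcongr
      rw [div_le_iff₀ (pow_pos (norm_pos_iff.2 (ne2 (m1 z hz).1)) 2), ci_re (m1 z hz).1]
      exact (m1 z hz).2.le
    · refine Subtype.ext (funext fun z => ?_)
      change z.1.2 ^ 2 * kap A c _ =
        (1 - z.1.1) * (1 - z.1.1) * (z.1.2 ^ 2 * ((1 - z.1.1) ^ 2)⁻¹ * kap A c _)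
      have := ne2 (m1 z z.2).1
      field_simp
    · change kap A c (ci (cy s), ci (cy s)) = _
      rw [ci_cy hs]

theorem result : Bad D2 ∧ Bad B2 := ⟨bidisc, ball⟩

end Pool.Agent.Results.MP_b621dd_an.No
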